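import Mathlib
import Pool.Agent.Lib.AbcZW.SubexpE

namespace Pool.Agent.Results.MP_2ec8a3_nt.AllTriples

/-- `(a, b, c)` is an abc-triple: pairwise coprime positive integers with `a + b = c`
(`a` and `b` coprime is enough, as `c = a + b`). -/
def AbcTriple (a b c : ℕ) : Prop := 0 < a ∧ 0 < b ∧ a + b = c ∧ Nat.Coprime a b

/-- The product of the distinct primes dividing `n`. -/
def rad (n : ℕ) : ℕ := ∏ p ∈ n.primeFactors, p

/-- (0) For every `ε > 0` there is `K` such that EVERY abc-triple has `log c < K rad (abc) ^ ε`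
(the record was the exponent `1/3 + ε`). (1) For `ε ≤ 1` one can take
`K = exp (exp ((10 ^ 12 / ε) (1 + log (1 / ε))))`.
(2) `log c ≤ exp (10 ^ 13 log r log log log r / log log r)` for
`r = rad (abc) ≥ exp (exp (10 ^ 15))`.
(3) More generally only a divisor `D` of one member has to enter the radical: for coprime
`a, b > 0`, `s = ±1`, `a ≠ s b` and every divisor `D` of `a - s b`,
`log D ≤ d log max (a, b) + K rad (abD) ^ ε` with `K` as in (1), for `ε d` in place of `ε`. -/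
theorem result :
    (∀ ε : ℝ, 0 < ε → ∃ K : ℝ, 0 < K ∧ ∀ a b c : ℕ, AbcTriple a b c →
      Real.log c < K * (rad (a * b * c) : ℝ) ^ ε) ∧
    (∀ ε : ℝ, 0 < ε → ε ≤ 1 → ∀ a b c : ℕ, AbcTriple a b c →
      Real.log c ≤ Real.exp (Real.exp (10 ^ 12 / ε * (1 + Real.log (1 / ε)))) *
        (rad (a * b * c) : ℝ) ^ ε) ∧
    (∀ a b c : ℕ, AbcTriple a b c → Real.exp (Real.exp (10 ^ 15)) ≤ (rad (a * b * c) : ℝ) →
      Real.log c ≤ Real.exp (10 ^ 13 * Real.log (rad (a * b * c)) *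
        Real.log (Real.log (Real.log (rad (a * b * c)))) /
        Real.log (Real.log (rad (a * b * c))))) ∧
    (∀ ε d : ℝ, 0 < ε → ε ≤ 1 → 0 < d → d ≤ 1 →
      ∀ (a b D : ℕ) (s : ℤ), 0 < a → 0 < b → Nat.Coprime a b → (s = 1 ∨ s = -1) →
      (a : ℤ) ≠ s * b → (D : ℤ) ∣ (a : ℤ) - s * b →
      Real.log D ≤ d * Real.log (max a b : ℕ) +
        Real.exp (Real.exp (10 ^ 12 / (ε * d) * (1 + Real.log (1 / (ε * d))))) *
          (rad (a * b * D) : ℝ) ^ ε) := by
  refine ⟨Pool.Agent.Lib.AbcZW.plainExpl, Pool.Agent.Lib.AbcZW.allEpsExpl,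
    Pool.Agent.Lib.AbcZW.subexpExpl, ?_⟩
  intro ε d h1 h2 h3 h4 a b D s ha hb hcop hs hne hD
  have hD0 : 0 < D := by
    rcases Nat.eq_zero_or_pos D with h0 | h0
    · subst h0
      exfalso
      apply hne
      have := zero_dvd_iff.1 (by simpa using hD : (0 : ℤ) ∣ (a : ℤ) - s * b)
      linarith
    · exact h0
  exact Pool.Agent.Lib.AbcZW.ridoutExpl ε d h1 h2 h3 h4 a b D s ha hb hcop hs hne hD0 hD

end Pool.Agent.Results.MP_2ec8a3_nt.AllTriples
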