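import Mathlib
import Pool.Agent.Lib.AbcD.Final
import Pool.Agent.Lib.AbcE.Sharp
import Pool.Agent.Lib.AbcZ.Subexp

open Filter

namespace Pool.Agent.Results.MP_2ec8a3_nt.AsymptoticCount

/-- The radical of `n`: the product of the distinct primes dividing `n`. -/
def rad (n : ℕ) : ℕ := ∏ p ∈ n.primeFactors, p

/-- `(a, b, c)` is an abc-triple: pairwise coprime positive integers with `a + b = c`. -/
def AbcTriple (a b c : ℕ) : Prop :=
  0 < a ∧ 0 < b ∧ 0 < c ∧ a.Coprime b ∧ a.Coprime c ∧ b.Coprime c ∧ a + b = c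

/-- All abc-triples `(a, b, c)` with `rad (abc) ≤ Y`; there is no condition on the size of `c`. -/
def triples (Y : ℕ) : Set (ℕ × ℕ × ℕ) :=
  {t | AbcTriple t.1 t.2.1 t.2.2 ∧ rad (t.1 * t.2.1 * t.2.2) ≤ Y}

/-- The abc-triples `(a, b, c)` with `rad (abc) ≤ Y` which violate `c < rad (abc) ^ M`. -/
def violations (M : ℝ) (Y : ℕ) : Set (ℕ × ℕ × ℕ) :=
  {t | t ∈ triples Y ∧ (rad (t.1 * t.2.1 * t.2.2) : ℝ) ^ M ≤ t.2.2}

/-- The radicals `rad (abc) ≤ Y` of the abc-triples. -/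
def radicals (Y : ℕ) : Set ℕ :=
  {r | ∃ t ∈ triples Y, rad (t.1 * t.2.1 * t.2.2) = r}

/-- The radicals `r` of an abc-triple `(a, b, c)` with `c < r ^ M` such that every abc-triple all of
whose primes divide `r`, other than `(a, b, c)` and `(b, a, c)`, has radical at most `D`. -/
def dominated (M D : ℝ) : Set ℕ :=
  {r | ∃ a b c : ℕ, AbcTriple a b c ∧ rad (a * b * c) = r ∧ (c : ℝ) < (r : ℝ) ^ M ∧
    ∀ a' b' c' : ℕ, AbcTriple a' b' c' → rad (a' * b' * c') ∣ r →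
      (a', b', c') = (a, b, c) ∨ (a', b', c') = (b, a, c) ∨ (rad (a' * b' * c') : ℝ) ≤ D}

/-- The radicals `r` of an abc-triple `(a, b, c)` with `c < r ^ M` such that every abc-triple
`(a', b', c')` all of whose primes divide `r`, other than `(a, b, c)` and `(b, a, c)`, satisfies
`log c' ≤ (log r) ^ δ`. -/
def lonely (M δ : ℝ) : Set ℕ :=
  {r | ∃ a b c : ℕ, AbcTriple a b c ∧ rad (a * b * c) = r ∧ (c : ℝ) < (r : ℝ) ^ M ∧
    ∀ a' b' c' : ℕ, AbcTriple a' b' c' → rad (a' * b' * c') ∣ r →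
      (a', b', c') = (a, b, c) ∨ (a', b', c') = (b, a, c) ∨ Real.log c' ≤ Real.log r ^ δ}

/-- The factor at the prime `p` of the constant:
`(1 - p^(-1)) (1 + p^(-1) + 3 p^(-4/3) + 3 p^(-5/3))`. -/
noncomputable def factor (p : ℕ) : ℝ :=
  (1 - 1 / (p : ℝ)) * (1 + 1 / (p : ℝ) + 3 * (p : ℝ) ^ (-(4 / 3) : ℝ) +
    3 * (p : ℝ) ^ (-(5 / 3) : ℝ))

/-- The constant `Γ(1/3)² / (2 Γ(2/3)) * ∏_p factor p`, the product over all primes. -/
noncomputable def C : ℝ :=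
  Real.Gamma (1 / 3) ^ 2 / (2 * Real.Gamma (2 / 3)) * ∏' p : Nat.Primes, factor p

theorem mem_triples {Y : ℕ} {a b c : ℕ} : (a, b, c) ∈ triples Y ↔
    Pool.Agent.Lib.AbcD.InF Y (a, b) ∧ a + b = c := by
  constructor
  · rintro ⟨⟨h1, h2, _, h3, _, _, h4⟩, h5⟩
    simp only at h1 h2 h3 h4 h5
    subst h4
    exact ⟨⟨h1, h2, h3, h5⟩, rfl⟩
  · rintro ⟨⟨h1, h2, h3, h4⟩, rfl⟩
    simp only at h1 h2 h3
    exact ⟨⟨h1, h2, by simp only; omega, h3, (Nat.coprime_self_add_right).mpr h3,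
      (Nat.coprime_add_self_right).mpr h3.symm, rfl⟩, h4⟩

theorem abc_iff {a b c : ℕ} : AbcTriple a b c ↔ 0 < a ∧ 0 < b ∧ a.Coprime b ∧ a + b = c := by
  constructor
  · rintro ⟨h1, h2, _, h3, _, _, h4⟩
    exact ⟨h1, h2, h3, h4⟩
  · rintro ⟨h1, h2, h3, rfl⟩
    exact ⟨h1, h2, by omega, h3, (Nat.coprime_self_add_right).mpr h3,
      (Nat.coprime_add_self_right).mpr h3.symm, rfl⟩

theorem radicals_eq {Y : ℕ} {F : Finset (ℕ × ℕ)}
    (hF : ∀ t, t ∈ F ↔ Pool.Agent.Lib.AbcD.InF Y t) : radicals Y =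
    ((F.image (fun t => Pool.Agent.Lib.AbcG.rad (Pool.Agent.Lib.AbcG.Nn t)) : Finset ℕ) :
      Set ℕ) := by
  classical
  ext r
  rw [Finset.mem_coe, Finset.mem_image]
  constructor
  · rintro ⟨⟨a, b, c⟩, h1, h2⟩
    obtain ⟨h3, rfl⟩ := mem_triples.1 h1
    exact ⟨(a, b), (hF _).2 h3, h2⟩
  · rintro ⟨⟨a, b⟩, h1, h2⟩
    exact ⟨(a, b, a + b), mem_triples.2 ⟨(hF _).1 h1, rfl⟩, h2⟩

theorem rad_pair {a b c : ℕ} (h : a + b = c) :
    rad (a * b * c) = Pool.Agent.Lib.AbcG.rad (Pool.Agent.Lib.AbcG.Nn (a, b)) := by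
  rw [← h]
  rfl

/-- The other triples composed of the primes of `r`. -/
theorem others {P : ℕ × ℕ → Prop} {a b c r : ℕ} (h8 : a + b = c) (hr : rad (a * b * c) = r)
    (hs : ¬ ∃ t' : ℕ × ℕ, 0 < t'.1 ∧ 0 < t'.2 ∧ t'.1.Coprime t'.2 ∧
      Pool.Agent.Lib.AbcG.rad (Pool.Agent.Lib.AbcG.Nn t') ∣
        Pool.Agent.Lib.AbcG.rad (Pool.Agent.Lib.AbcG.Nn (a, b)) ∧ t' ≠ (a, b) ∧
      t' ≠ (a, b).swap ∧ P t') : ∀ a' b' c' : ℕ, AbcTriple a' b' c' →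
      rad (a' * b' * c') ∣ r →
      (a', b', c') = (a, b, c) ∨ (a', b', c') = (b, a, c) ∨ ¬ P (a', b') := by
  intro a' b' c' k1 k2
  by_contra hcon
  push Not at hcon
  apply hs
  obtain ⟨b1, b2, b3, b4⟩ := abc_iff.1 k1
  refine ⟨(a', b'), b1, b2, b3, ?_, ?_, ?_, hcon.2.2⟩
  · rw [← rad_pair b4, ← rad_pair h8, hr]
    exact k2
  · intro e
    apply hcon.1
    simp only [Prod.mk.injEq] at e ⊢
    exact ⟨e.1, e.2, by rw [← b4, ← h8, e.1, e.2]⟩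
  · intro e
    apply hcon.2.1
    simp only [Prod.mk.injEq, Prod.swap_prod_mk] at e ⊢
    exact ⟨e.1, e.2, by rw [← b4, ← h8, e.1, e.2, add_comm]⟩

/-- Counting the exceptional radicals. -/
theorem key {M E bnd : ℝ} {Y : ℕ} {F : Finset (ℕ × ℕ)}
    (hF : ∀ t, t ∈ F ↔ Pool.Agent.Lib.AbcD.InF Y t) (hfinV : (violations M Y).Finite)
    (a2 : ((violations M Y).ncard : ℝ) ≤ E) (P : ℕ × ℕ → Prop)
    (hP : ∀ S : Finset (ℕ × ℕ), (∀ t ∈ S, Pool.Agent.Lib.AbcD.InF Y t ∧ P t) →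
      (S.card : ℝ) ≤ bnd)
    (G X : Set ℕ) (hX : X.Finite)
    (hGX : ∀ a b c r : ℕ, (a, b, c) ∈ triples Y → rad (a * b * c) = r →
      (a, b, c) ∉ violations M Y → ¬ P (a, b) → r ∈ G ∪ X) :
    (((radicals Y \ G).ncard : ℕ) : ℝ) ≤ X.ncard + (bnd + E) := by
  classical
  obtain ⟨Sh, hSh⟩ : ∃ Sh : Finset (ℕ × ℕ), Sh = F.filter P := ⟨_, rfl⟩
  have a4 : (Sh.card : ℝ) ≤ bnd := by
    refine hP Sh (fun t ht => ?_)
    rw [hSh, Finset.mem_filter] at ht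
    exact ⟨(hF t).1 ht.1, ht.2⟩
  obtain ⟨P1, hP1⟩ : ∃ P1 : Set ℕ, P1 =
    ((Sh.image (fun t => Pool.Agent.Lib.AbcG.rad (Pool.Agent.Lib.AbcG.Nn t)) : Finset ℕ) :
      Set ℕ) := ⟨_, rfl⟩
  obtain ⟨P2, hP2⟩ : ∃ P2 : Set ℕ, P2 =
    (fun t : ℕ × ℕ × ℕ => rad (t.1 * t.2.1 * t.2.2)) '' violations M Y := ⟨_, rfl⟩
  have f1 : P1.Finite := by rw [hP1]; exact Finset.finite_toSet _
  have f2 : P2.Finite := by rw [hP2]; exact hfinV.image _
  have hcov : radicals Y \ G ⊆ X ∪ (P1 ∪ P2) := by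
    rintro r ⟨⟨⟨a, b, c⟩, h5, h6⟩, hrG⟩
    simp only at h6
    obtain ⟨h7, h8⟩ := mem_triples.1 h5
    by_cases hv : (a, b, c) ∈ violations M Y
    · right; right
      rw [hP2]
      exact ⟨(a, b, c), hv, h6⟩
    by_cases hs : P (a, b)
    · right; left
      rw [hP1, Finset.mem_coe, Finset.mem_image]
      refine ⟨(a, b), ?_, ?_⟩
      · rw [hSh, Finset.mem_filter]
        exact ⟨(hF _).2 h7, hs⟩
      · rw [← h6, ← rad_pair h8]
    · rcases hGX a b c r h5 h6 hv hs with h | h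
      · exact absurd h hrG
      · exact Or.inl h
  have k1 := Set.ncard_le_ncard hcov (hX.union (f1.union f2))
  have k3 := Set.ncard_union_le X (P1 ∪ P2)
  have k4 := Set.ncard_union_le P1 P2
  have k5 : P1.ncard ≤ Sh.card := by
    rw [hP1, Set.ncard_coe_finset]
    exact Finset.card_image_le
  have k6 : P2.ncard ≤ (violations M Y).ncard := by
    rw [hP2]
    exact Set.ncard_image_le hfinV
  have k7 : (radicals Y \ G).ncard ≤ X.ncard + (Sh.card + (violations M Y).ncard) := by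
    omega
  have k8 : (((radicals Y \ G).ncard : ℕ) : ℝ) ≤ X.ncard + (Sh.card + (violations M Y).ncard) := by
    exact_mod_cast k7
  linarith

theorem lt_of_not_viol {M : ℝ} {Y a b c r : ℕ} (h5 : (a, b, c) ∈ triples Y)
    (h6 : rad (a * b * c) = r) (hv : (a, b, c) ∉ violations M Y) : (c : ℝ) < (r : ℝ) ^ M := by
  by_contra hcon
  apply hv
  refine ⟨h5, ?_⟩
  simp only
  rw [h6]
  exact not_lt.1 hcon

/-- The counts. -/
theorem counts (M ε : ℝ) (hM : 1 / 3 < M) (hε : 0 < ε) :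
    ∃ κ K : ℝ, 0 < κ ∧ ∀ᶠ Y : ℕ in atTop, (triples Y).Finite ∧
      |((triples Y).ncard : ℝ) - C * (Y : ℝ) ^ (2 / 3 : ℝ)| ≤ (Y : ℝ) ^ (2 / 3 - κ) ∧
      |((radicals Y).ncard : ℝ) - C / 2 * (Y : ℝ) ^ (2 / 3 : ℝ)| ≤ (Y : ℝ) ^ (2 / 3 - κ) ∧
      ((violations M Y).ncard : ℝ) ≤ (Y : ℝ) ^ (2 / 3 - κ) ∧
      ∀ D : ℝ, 1 ≤ D → D ≤ (Y : ℝ) ^ κ → ((radicals Y \ dominated M D).ncard : ℝ) ≤
        K * (Y : ℝ) ^ (2 / 3 : ℝ) * D ^ (ε - 1 / 3) := by
  classical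
  have hM0 : 0 < M := by linarith
  obtain ⟨κ1, hκ1, hev1⟩ := Pool.Agent.Lib.AbcG.final Pool.Agent.Lib.AbcD.almostAll
  obtain ⟨κ2, hκ2, hev2⟩ := Pool.Agent.Lib.AbcL.ready_A (M - 1 / 3) (sub_pos.2 hM)
  obtain ⟨κ3, hκ3, hev3⟩ := Pool.Agent.Lib.AbcD.count_radicals
  obtain ⟨κ4, B, hκ4, hB, hev4⟩ := Pool.Agent.Lib.AbcE.supp_sharp ε hε
  obtain ⟨κ, hκd⟩ : ∃ κ : ℝ, κ = min (min (min κ1 κ2) (min κ3 κ4)) (1 / 10) := ⟨_, rfl⟩
  have hκ : 0 < κ := by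
    rw [hκd]
    exact lt_min (lt_min (lt_min hκ1 hκ2) (lt_min hκ3 hκ4)) (by norm_num)
  have l0 : κ ≤ min (min κ1 κ2) (min κ3 κ4) := by rw [hκd]; exact min_le_left _ _
  have l1 : κ ≤ κ1 := l0.trans ((min_le_left _ _).trans (min_le_left _ _))
  have l2 : κ ≤ κ2 := l0.trans ((min_le_left _ _).trans (min_le_right _ _))
  have l3 : κ ≤ κ3 := l0.trans ((min_le_right _ _).trans (min_le_left _ _))
  have l4 : κ ≤ κ4 := l0.trans ((min_le_right _ _).trans (min_le_right _ _))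
  have l5 : κ ≤ 1 / 10 := by rw [hκd]; exact min_le_right _ _
  refine ⟨κ, B + 3, hκ, ?_⟩
  have hlogt : Tendsto (fun Y : ℕ => Real.log (Y : ℝ)) atTop atTop :=
    Real.tendsto_log_atTop.comp tendsto_natCast_atTop_atTop
  have hlarge3 : ∀ᶠ Y : ℕ in atTop, 1 ≤ Real.log Y := hlogt.eventually (eventually_ge_atTop 1)
  have hlog2 : ∀ᶠ Y : ℕ in atTop, Real.log Y ≤ (Y : ℝ) ^ κ := by
    have h1 := (isLittleO_log_rpow_atTop hκ).bound (show (0 : ℝ) < 1 by norm_num)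
    have h2 := tendsto_natCast_atTop_atTop (R := ℝ) |>.eventually h1
    filter_upwards [h2, hlarge3, eventually_ge_atTop 1] with Y h3 h4 h5
    rw [one_mul, Real.norm_of_nonneg (by linarith), Real.norm_of_nonneg (by positivity)] at h3
    exact h3
  filter_upwards [hev1, hev2, hev3, hev4, hlarge3, hlog2, eventually_ge_atTop 1]
    with Y h1 h2 h3 h4 hl3 hl4 hY1
  have hY1' : (1 : ℝ) ≤ Y := by exact_mod_cast hY1
  have hY0 : (0 : ℝ) < Y := by linarith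
  have hX0 : 0 < (Y : ℝ) ^ (2 / 3 : ℝ) := by positivity
  have hl0 : 0 < Real.log Y := by linarith
  obtain ⟨E, hE⟩ : ∃ E : ℝ, E = (Y : ℝ) ^ (2 / 3 - κ) := ⟨_, rfl⟩
  have hE0 : 0 ≤ E := by rw [hE]; positivity
  have hm : ∀ κ' : ℝ, κ ≤ κ' → (Y : ℝ) ^ (2 / 3 - κ') ≤ E := by
    intro κ' h
    rw [hE]
    exact Real.rpow_le_rpow_of_exponent_le hY1' (by linarith)
  -- the pairs
  obtain ⟨F, hF⟩ : ∃ F : Finset (ℕ × ℕ), ∀ t, t ∈ F ↔ Pool.Agent.Lib.AbcD.InF Y t :=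
    ⟨(Pool.Agent.Lib.AbcD.F_finite Y).toFinset, fun t => by
      rw [Set.Finite.mem_toFinset]; rfl⟩
  have a1 := h1 (triples Y) (fun a b c => mem_triples)
  have a3 := h3 F hF
  have e3 : radicals Y = _ := radicals_eq hF
  -- violations
  have e2 : violations M Y = Pool.Agent.Lib.AbcL.excTriples (M - 1 / 3) Y := by
    have e1 : 1 / 3 + (M - 1 / 3) = M := by ring
    ext t
    unfold violations Pool.Agent.Lib.AbcL.excTriples
    rw [e1]
    constructor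
    · rintro ⟨⟨h1, h2⟩, h3⟩
      exact ⟨h1, h2, h3⟩
    · rintro ⟨h1, h2, h3⟩
      exact ⟨⟨h1, h2⟩, h3⟩
  have a2 : ((violations M Y).ncard : ℝ) ≤ E := by
    rw [e2]
    exact h2.1.2.trans (hm κ2 l2)
  have hfinV : (violations M Y).Finite := by rw [e2]; exact h2.1.1
  have hR : ((radicals Y).ncard : ℝ) =
      ((F.image (fun t => Pool.Agent.Lib.AbcG.rad (Pool.Agent.Lib.AbcG.Nn t))).card : ℝ) := by
    rw [e3, Set.ncard_coe_finset]
  have a3' : |((radicals Y).ncard : ℝ) - C / 2 * (Y : ℝ) ^ (2 / 3 : ℝ)| ≤ E := by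
    rw [hR]
    exact a3.trans (hm κ3 l3)
  -- the error term is small
  have hEu : ∀ u : ℝ, 1 ≤ u → u ≤ (Y : ℝ) ^ κ → E ≤ (Y : ℝ) ^ (2 / 3 : ℝ) * u ^ (ε - 1 / 3) := by
    intro u hu1 hu2
    have e4 : E = (Y : ℝ) ^ (2 / 3 : ℝ) * ((Y : ℝ) ^ κ) ^ (-1 : ℝ) := by
      rw [hE, ← Real.rpow_mul hY0.le, ← Real.rpow_add hY0]
      congr 1
      ring
    rw [e4]
    apply mul_le_mul_of_nonneg_left _ hX0.le
    refine (Real.rpow_le_rpow_of_nonpos (by linarith) hu2 (by norm_num)).trans ?_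
    exact Real.rpow_le_rpow_of_exponent_le hu1 (by linarith)
  refine ⟨a1.1, ?_, ?_, ?_, ?_⟩
  · rw [← hE]
    exact a1.2.trans (hm κ1 l1)
  · rw [← hE]
    exact a3'
  · rw [← hE]
    exact a2
  · intro D hD hDY
    have hD0 : 0 < D := by linarith
    have hDY4 : D ≤ (Y : ℝ) ^ κ4 := hDY.trans (Real.rpow_le_rpow_of_exponent_le hY1' l4)
    have h6 := key hF hfinV a2 _ (fun S hS => h4 D S hD hDY4 hS) (dominated M D) ∅
      Set.finite_empty (by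
      intro a b c r h5 h6 hv hs
      left
      obtain ⟨h7, h8⟩ := mem_triples.1 h5
      refine ⟨a, b, c, h5.1, h6, lt_of_not_viol h5 h6 hv, ?_⟩
      intro a' b' c' k1 k2
      rcases others (P := fun t' => D < Pool.Agent.Lib.AbcG.rad (Pool.Agent.Lib.AbcG.Nn t')) h8 h6
        hs a' b' c' k1 k2 with h | h | h
      · exact Or.inl h
      · exact Or.inr (Or.inl h)
      · right; right
        obtain ⟨b1, b2, b3, b4⟩ := abc_iff.1 k1
        rw [rad_pair b4]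
        exact not_lt.1 h)
    refine h6.trans ?_
    rw [Set.ncard_empty, Nat.cast_zero, zero_add]
    have h7 := hEu D hD hDY
    obtain ⟨Q, hQ⟩ : ∃ Q : ℝ, Q = (Y : ℝ) ^ (2 / 3 : ℝ) * D ^ (ε - 1 / 3) := ⟨_, rfl⟩
    rw [← hQ] at h7
    have hQ0 : 0 ≤ Q := by rw [hQ]; positivity
    have e6 : B * D ^ (ε - 1 / 3) * (Y : ℝ) ^ (2 / 3 : ℝ) = B * Q := by
      rw [hQ]
      ring
    have e7 : (B + 3) * (Y : ℝ) ^ (2 / 3 : ℝ) * D ^ (ε - 1 / 3) =
        B * Q + 3 * Q := by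
      rw [hQ]
      ring
    rw [e6, e7]
    linarith

/-- All but `Y ^ (2/3) / (log Y) ^ B` of the radicals `r ≤ Y` are lonely, for every `B`. -/
theorem lonely_most (M δ B : ℝ) (hM : 1 / 3 < M) (hδ : 0 < δ) : ∀ᶠ Y : ℕ in atTop,
    ((radicals Y \ lonely M δ).ncard : ℝ) ≤ (Y : ℝ) ^ (2 / 3 : ℝ) / Real.log Y ^ B := by
  classical
  obtain ⟨κ, K, hκ, hev⟩ := counts M (1 / 12) hM (by norm_num)
  obtain ⟨B1, hB1⟩ : ∃ B1 : ℝ, B1 = 4 * (max B 0 + 1) := ⟨_, rfl⟩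
  have hmax : B ≤ max B 0 := le_max_left _ _
  have hmax0 : 0 ≤ max B 0 := le_max_right _ _
  have hB10 : 0 < B1 := by linarith
  obtain ⟨K2, hK2, hsub⟩ := Pool.Agent.Lib.AbcZ.subexp (δ / (2 * B1)) (by positivity)
  have hlogt : Tendsto (fun Y : ℕ => Real.log (Y : ℝ)) atTop atTop :=
    Real.tendsto_log_atTop.comp tendsto_natCast_atTop_atTop
  have g1 : ∀ᶠ Y : ℕ in atTop, 1 ≤ Real.log Y := hlogt.eventually (eventually_ge_atTop 1)
  have g2 : ∀ᶠ Y : ℕ in atTop, |K| + 2 ≤ Real.log Y :=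
    hlogt.eventually (eventually_ge_atTop _)
  have g3 : ∀ᶠ Y : ℕ in atTop, K2 * 2 ^ δ ≤ Real.log Y ^ (δ / 2) :=
    ((tendsto_rpow_atTop (half_pos hδ)).comp hlogt).eventually (eventually_ge_atTop _)
  have g4 : ∀ ρ s : ℝ, 0 < ρ → ∀ᶠ Y : ℕ in atTop, Real.log Y ^ s ≤ (Y : ℝ) ^ ρ := by
    intro ρ s hρ
    have h1 := (isLittleO_log_rpow_rpow_atTop s hρ).bound (show (0 : ℝ) < 1 by norm_num)
    have h2 := tendsto_natCast_atTop_atTop (R := ℝ) |>.eventually h1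
    filter_upwards [h2, g1, eventually_ge_atTop 1] with Y h3 h4 h5
    rw [one_mul, Real.norm_of_nonneg (by positivity), Real.norm_of_nonneg (by positivity)] at h3
    exact h3
  filter_upwards [hev, g1, g2, g3, g4 κ B1 hκ, g4 (1 / 6) (max B 0 + 1) (by norm_num),
    eventually_ge_atTop 1] with Y h1 k1 k2 k3 k4 k5 hY1
  have hY1' : (1 : ℝ) ≤ Y := by exact_mod_cast hY1
  have hY0 : (0 : ℝ) < Y := by linarith
  have hl0 : 0 < Real.log Y := by linarith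
  obtain ⟨D, hD⟩ : ∃ D : ℝ, D = Real.log Y ^ B1 := ⟨_, rfl⟩
  have hD1 : 1 ≤ D := by rw [hD]; exact Real.one_le_rpow k1 hB10.le
  have hD0 : 0 < D := by linarith
  have h2 := h1.2.2.2.2 D hD1 (by rw [hD]; exact k4)
  obtain ⟨X, hX⟩ : ∃ X : Set ℕ, X = ((Finset.range (⌊(Y : ℝ) ^ (1 / 2 : ℝ)⌋₊ + 1) : Finset ℕ) :
      Set ℕ) := ⟨_, rfl⟩
  have hXf : X.Finite := by rw [hX]; exact Finset.finite_toSet _
  have hRf : (radicals Y).Finite := by
    apply (Set.finite_Iic Y).subset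
    rintro r ⟨t, ht, rfl⟩
    exact ht.2
  have hcov : radicals Y \ lonely M δ ⊆ X ∪ (radicals Y \ dominated M D) := by
    rintro r ⟨hr1, hr2⟩
    by_cases hrX : r ∈ X
    · exact Or.inl hrX
    right
    refine ⟨hr1, fun hr3 => hr2 ?_⟩
    obtain ⟨a, b, c, c1, c2, c3, c4⟩ := hr3
    refine ⟨a, b, c, c1, c2, c3, ?_⟩
    intro a' b' c' d1 d2
    rcases c4 a' b' c' d1 d2 with d3 | d3 | d3
    · exact Or.inl d3
    · exact Or.inr (Or.inl d3)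
    right; right
    have hr4 : (Y : ℝ) ^ (1 / 2 : ℝ) < r := by
      rw [hX, Finset.mem_coe, Finset.mem_range, not_lt] at hrX
      exact (Nat.floor_lt (by positivity)).1 (by omega)
    have hr0 : (0 : ℝ) < r := lt_trans (by positivity) hr4
    have e1 : Real.log Y / 2 ≤ Real.log r := by
      have h3 := Real.log_le_log (by positivity) hr4.le
      rw [Real.log_rpow hY0] at h3
      linarith
    obtain ⟨b1, b2, b3, b4⟩ := abc_iff.1 d1
    have e2 := hsub a' b' c' ⟨b1, b2, b4, b3⟩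
    have e3 : (Pool.Agent.Lib.AbcH.rad (a' * b' * c') : ℝ) ^ (δ / (2 * B1)) ≤
        Real.log Y ^ (δ / 2) := by
      have h3 : (Pool.Agent.Lib.AbcH.rad (a' * b' * c') : ℝ) ≤ D := d3
      have h4 := Real.rpow_le_rpow (Nat.cast_nonneg _) h3 (show 0 ≤ δ / (2 * B1) by positivity)
      refine h4.trans (le_of_eq ?_)
      rw [hD, ← Real.rpow_mul hl0.le]
      congr 1
      field_simp
    calc Real.log c' ≤ K2 * Real.log Y ^ (δ / 2) :=
          e2.trans (mul_le_mul_of_nonneg_left e3 hK2.le)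
      _ ≤ Real.log Y ^ (δ / 2) / 2 ^ δ * Real.log Y ^ (δ / 2) := by
          apply mul_le_mul_of_nonneg_right _ (by positivity)
          rw [le_div_iff₀ (by positivity)]
          exact k3
      _ = (Real.log Y / 2) ^ δ := by
          rw [Real.div_rpow hl0.le (by norm_num), div_mul_eq_mul_div, ← Real.rpow_add hl0]
          congr 2
          ring
      _ ≤ Real.log r ^ δ := Real.rpow_le_rpow (by positivity) e1 hδ.le
  have n1 := Set.ncard_le_ncard hcov (hXf.union (hRf.subset Set.sdiff_subset))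
  have n2 := Set.ncard_union_le X (radicals Y \ dominated M D)
  have n3 : ((radicals Y \ lonely M δ).ncard : ℝ) ≤
      X.ncard + (radicals Y \ dominated M D).ncard := by exact_mod_cast n1.trans n2
  obtain ⟨Q, hQ⟩ : ∃ Q : ℝ, Q = (Y : ℝ) ^ (2 / 3 : ℝ) * Real.log Y ^ (-(max B 0 + 1)) := ⟨_, rfl⟩
  have hQ0 : 0 ≤ Q := by rw [hQ]; positivity
  have n4 : (X.ncard : ℝ) ≤ 2 * Q := by
    rw [hX, Set.ncard_coe_finset, Finset.card_range]
    push_cast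
    have h5 := Nat.floor_le (show 0 ≤ (Y : ℝ) ^ (1 / 2 : ℝ) by positivity)
    have h6 : 1 ≤ (Y : ℝ) ^ (1 / 2 : ℝ) := Real.one_le_rpow hY1' (by norm_num)
    have h7 : (Y : ℝ) ^ (1 / 2 : ℝ) ≤ Q := by
      rw [hQ, Real.rpow_neg hl0.le, ← div_eq_mul_inv, le_div_iff₀ (by positivity)]
      calc (Y : ℝ) ^ (1 / 2 : ℝ) * Real.log Y ^ (max B 0 + 1)
          ≤ (Y : ℝ) ^ (1 / 2 : ℝ) * (Y : ℝ) ^ (1 / 6 : ℝ) := by gcongr
        _ = (Y : ℝ) ^ (2 / 3 : ℝ) := by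
            rw [← Real.rpow_add hY0]
            norm_num
    linarith
  have n5 : ((radicals Y \ dominated M D).ncard : ℝ) ≤ |K| * Q := by
    refine h2.trans ?_
    have e4 : D ^ (1 / 12 - 1 / 3 : ℝ) = Real.log Y ^ (-(max B 0 + 1)) := by
      rw [hD, ← Real.rpow_mul hl0.le]
      congr 1
      rw [hB1]
      ring
    rw [e4, mul_assoc, ← hQ]
    exact mul_le_mul_of_nonneg_right (le_abs_self K) hQ0
  have n6 : (|K| + 2) * Q ≤ (Y : ℝ) ^ (2 / 3 : ℝ) / Real.log Y ^ B := by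
    calc (|K| + 2) * Q ≤ Real.log Y * Q := mul_le_mul_of_nonneg_right k2 hQ0
      _ = (Y : ℝ) ^ (2 / 3 : ℝ) * Real.log Y ^ (-(max B 0)) := by
          rw [hQ, show -(max B 0) = 1 + -(max B 0 + 1) by ring, Real.rpow_add hl0, Real.rpow_one]
          ring
      _ ≤ (Y : ℝ) ^ (2 / 3 : ℝ) * Real.log Y ^ (-B) := by
          apply mul_le_mul_of_nonneg_left _ (by positivity)
          exact Real.rpow_le_rpow_of_exponent_le k1 (by linarith)
      _ = _ := by rw [Real.rpow_neg hl0.le, ← div_eq_mul_inv]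
  linarith

/-- The sum of `rad (abc) ^ (-σ)` over all abc-triples converges for `σ > 2/3`. -/
theorem sum_rad (σ : ℝ) (hσ : 2 / 3 < σ) :
    Summable (fun t : {t : ℕ × ℕ × ℕ // AbcTriple t.1 t.2.1 t.2.2} =>
      (rad (t.1.1 * t.1.2.1 * t.1.2.2) : ℝ) ^ (-σ)) := by
  obtain ⟨e, he⟩ : ∃ e : {t : ℕ × ℕ × ℕ // AbcTriple t.1 t.2.1 t.2.2} → ℕ × ℕ,
    e = fun t => (t.1.1, t.1.2.1) := ⟨_, rfl⟩
  have hinj : Function.Injective e := by
    rintro ⟨⟨a, b, c⟩, h⟩ ⟨⟨a', b', c'⟩, h'⟩ heq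
    rw [he] at heq
    simp only [Prod.mk.injEq] at heq
    have h1 := (abc_iff.1 h).2.2.2
    have h2 := (abc_iff.1 h').2.2.2
    simp only at h1 h2
    simp only [Subtype.mk.injEq, Prod.mk.injEq]
    omega
  have hpr : ∀ t, 0 < (e t).1 ∧ 0 < (e t).2 ∧ Nat.Coprime (e t).1 (e t).2 := by
    rintro ⟨⟨a, b, c⟩, h⟩
    obtain ⟨h1, h2, h3, -⟩ := abc_iff.1 h
    rw [he]
    exact ⟨h1, h2, h3⟩
  have h := Pool.Agent.Lib.AbcU.Dk_all e hinj hpr 1 σ hσ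
  have hrd : ∀ t : {t : ℕ × ℕ × ℕ // AbcTriple t.1 t.2.1 t.2.2},
      Pool.Agent.Lib.Pabc2.rd (e t) = rad (t.1.1 * t.1.2.1 * t.1.2.2) := by
    rintro ⟨⟨a, b, c⟩, h⟩
    have h1 := (abc_iff.1 h).2.2.2
    simp only at h1
    rw [he]
    simp only [← h1]
    rfl
  have h2 : ∑' t : {t : ℕ × ℕ × ℕ // AbcTriple t.1 t.2.1 t.2.2},
      ENNReal.ofReal ((rad (t.1.1 * t.1.2.1 * t.1.2.2) : ℝ) ^ (-σ)) ≠ ⊤ := by
    refine ne_of_eq_of_ne ?_ h
    unfold Pool.Agent.Lib.AbcU.Dk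
    rw [← (Equiv.funUnique (Fin 1) {t : ℕ × ℕ × ℕ // AbcTriple t.1 t.2.1 t.2.2}).tsum_eq]
    apply tsum_congr
    intro s
    rw [if_pos (fun i => Set.mem_univ _)]
    congr 3
    unfold Pool.Agent.Lib.AbcU.L
    rw [show (Finset.univ : Finset (Fin 1)) = {0} by rfl, Finset.lcm_singleton, normalize_eq]
    exact (hrd (s 0)).symm
  have h3 := ENNReal.summable_toReal h2
  refine h3.congr (fun t => ?_)
  exact ENNReal.toReal_ofReal (Real.rpow_nonneg (Nat.cast_nonneg _) _)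

/-- The sum of `(log c) ^ s * rad (abc) ^ (-t)` over all abc-triples converges for `t > 2/3`. -/
theorem sum_log (s t : ℝ) (ht : 2 / 3 < t) :
    Summable (fun τ : {τ : ℕ × ℕ × ℕ // AbcTriple τ.1 τ.2.1 τ.2.2} =>
      Real.log τ.1.2.2 ^ s * (rad (τ.1.1 * τ.1.2.1 * τ.1.2.2) : ℝ) ^ (-t)) := by
  obtain ⟨σ, hσ⟩ : ∃ σ : ℝ, σ = (t + 2 / 3) / 2 := ⟨_, rfl⟩
  have hσ1 : 2 / 3 < σ := by linarith
  have hσ2 : σ < t := by linarith
  have hK : ∃ K : ℝ, 0 ≤ K ∧ ∀ a b c : ℕ, AbcTriple a b c →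
      Real.log c ^ s ≤ K * (rad (a * b * c) : ℝ) ^ (t - σ) := by
    rcases le_or_gt s 0 with hs | hs
    · refine ⟨Real.log 2 ^ s, Real.rpow_nonneg (Real.log_nonneg (by norm_num)) _, ?_⟩
      intro a b c h
      obtain ⟨h1, h2, h3, h4⟩ := abc_iff.1 h
      have hc : (2 : ℝ) ≤ c := by exact_mod_cast (by omega : 2 ≤ c)
      have hr : (1 : ℝ) ≤ rad (a * b * c) := by
        have : 1 ≤ rad (a * b * c) := Pool.Agent.Lib.AbcH.rad_pos _
        exact_mod_cast this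
      have e1 : Real.log c ^ s ≤ Real.log 2 ^ s :=
        Real.rpow_le_rpow_of_nonpos (Real.log_pos (by norm_num))
          (Real.log_le_log (by norm_num) hc) hs
      have e2 : (1 : ℝ) ≤ (rad (a * b * c) : ℝ) ^ (t - σ) := Real.one_le_rpow hr (by linarith)
      have e3 : 0 ≤ Real.log 2 ^ s := Real.rpow_nonneg (Real.log_nonneg (by norm_num)) _
      nlinarith
    · obtain ⟨K, hK, h⟩ := Pool.Agent.Lib.AbcZ.subexp ((t - σ) / s) (div_pos (by linarith) hs)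
      refine ⟨K ^ s, by positivity, ?_⟩
      intro a b c habc
      obtain ⟨h1, h2, h3, h4⟩ := abc_iff.1 habc
      have hc : (1 : ℝ) ≤ c := by exact_mod_cast (by omega : 1 ≤ c)
      have e1 := Real.rpow_le_rpow (Real.log_nonneg hc) (h a b c ⟨h1, h2, h4, h3⟩) hs.le
      rw [Real.mul_rpow hK.le (by positivity), ← Real.rpow_mul (Nat.cast_nonneg _),
        div_mul_cancel₀ _ hs.ne'] at e1
      exact e1
  obtain ⟨K, hK0, hK⟩ := hK
  refine Summable.of_nonneg_of_le (fun τ => ?_) (fun τ => ?_) ((sum_rad σ hσ1).mul_left K)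
  · have h1 := (abc_iff.1 τ.2)
    have hc : (1 : ℝ) ≤ τ.1.2.2 := by exact_mod_cast (by omega : 1 ≤ τ.1.2.2)
    exact mul_nonneg (Real.rpow_nonneg (Real.log_nonneg hc) _)
      (Real.rpow_nonneg (Nat.cast_nonneg _) _)
  · have hr : (0 : ℝ) < rad (τ.1.1 * τ.1.2.1 * τ.1.2.2) := by
      have : 0 < rad (τ.1.1 * τ.1.2.1 * τ.1.2.2) := Pool.Agent.Lib.AbcH.rad_pos _
      exact_mod_cast this
    calc Real.log τ.1.2.2 ^ s * (rad (τ.1.1 * τ.1.2.1 * τ.1.2.2) : ℝ) ^ (-t)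
        ≤ K * (rad (τ.1.1 * τ.1.2.1 * τ.1.2.2) : ℝ) ^ (t - σ) *
          (rad (τ.1.1 * τ.1.2.1 * τ.1.2.2) : ℝ) ^ (-t) :=
          mul_le_mul_of_nonneg_right (hK _ _ _ τ.2) (by positivity)
      _ = K * (rad (τ.1.1 * τ.1.2.1 * τ.1.2.2) : ℝ) ^ (-σ) := by
          rw [mul_assoc, ← Real.rpow_add hr]
          congr 2
          ring

/-- For all `M > 1/3` and `ε > 0` there are `κ > 0` and `K` such that, for large `Y`: the number of
all abc-triples of radical at most `Y` is `C Y^(2/3)` and the number of the radicals of these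
triples is `(C/2) Y^(2/3)`, up to `Y^(2/3 - κ)`; at most `Y^(2/3 - κ)` triples violate
`c < rad (abc) ^ M`; for `1 ≤ D ≤ Y ^ κ` all but `K Y^(2/3) / D ^ (1/3 - ε)` of the radicals `r`
belong to an abc-triple `(a, b, c)` with `c < r ^ M` such that every abc-triple composed of primes
of `r`, other than `(a, b, c)` and `(b, a, c)`, has radical at most `D`; for all `δ > 0` and `B`, for
large `Y`, all but `Y^(2/3) / (log Y) ^ B` of the radicals `r` belong to an abc-triple `(a, b, c)`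
with `c < r ^ M` such that every abc-triple `(a', b', c')` composed of primes of `r`, other than
`(a, b, c)` and `(b, a, c)`, has `log c' ≤ (log r) ^ δ`; the product defining `C` converges and
`C > 0`; for all `s` and `t > 2/3` the sum of `(log c) ^ s * rad (abc) ^ (-t)` over all abc-triples
converges. -/
theorem result : Multipliable (fun p : Nat.Primes => factor p) ∧ 0 < C ∧
    (∀ s t : ℝ, 2 / 3 < t → Summable (fun τ : {τ : ℕ × ℕ × ℕ // AbcTriple τ.1 τ.2.1 τ.2.2} =>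
      Real.log τ.1.2.2 ^ s * (rad (τ.1.1 * τ.1.2.1 * τ.1.2.2) : ℝ) ^ (-t))) ∧
    ∀ M : ℝ, 1 / 3 < M →
      (∀ ε : ℝ, 0 < ε → ∃ κ K : ℝ, 0 < κ ∧ ∀ᶠ Y : ℕ in atTop, (triples Y).Finite ∧
        |((triples Y).ncard : ℝ) - C * (Y : ℝ) ^ (2 / 3 : ℝ)| ≤ (Y : ℝ) ^ (2 / 3 - κ) ∧
        |((radicals Y).ncard : ℝ) - C / 2 * (Y : ℝ) ^ (2 / 3 : ℝ)| ≤ (Y : ℝ) ^ (2 / 3 - κ) ∧
        ((violations M Y).ncard : ℝ) ≤ (Y : ℝ) ^ (2 / 3 - κ) ∧
        ∀ D : ℝ, 1 ≤ D → D ≤ (Y : ℝ) ^ κ → ((radicals Y \ dominated M D).ncard : ℝ) ≤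
          K * (Y : ℝ) ^ (2 / 3 : ℝ) * D ^ (ε - 1 / 3)) ∧
      ∀ δ B : ℝ, 0 < δ → ∀ᶠ Y : ℕ in atTop,
        ((radicals Y \ lonely M δ).ncard : ℝ) ≤ (Y : ℝ) ^ (2 / 3 : ℝ) / Real.log Y ^ B :=
  ⟨Pool.Agent.Lib.AbcG.hasProd_fac.multipliable, Pool.Agent.Lib.AbcG.Cabc_pos,
    fun s t ht => sum_log s t ht, fun M hM =>
    ⟨fun ε hε => counts M ε hM hε, fun δ B hδ => lonely_most M δ B hM hδ⟩⟩

end Pool.Agent.Results.MP_2ec8a3_nt.AsymptoticCount
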