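import Mathlib
import Pool.Agent.Lib.AbcX.Final

open Filter Topology

namespace Pool.Agent.Results.MP_2ec8a3_nt.Violators

/-- The radical of `n`: the product of the distinct primes dividing `n`. -/
def rad (n : ℕ) : ℕ := ∏ p ∈ n.primeFactors, p

/-- `(a, b, c)` is an abc-triple: pairwise coprime positive integers with `a + b = c`. -/
def AbcTriple (a b c : ℕ) : Prop :=
  0 < a ∧ 0 < b ∧ 0 < c ∧ a.Coprime b ∧ a.Coprime c ∧ b.Coprime c ∧ a + b = c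

/-- The abc-triples `(a, b, c)` of any size with `rad (abc) ≤ Y` and `rad (abc) ^ M ≤ c`. -/
def violators (M : ℝ) (Y : ℕ) : Set (ℕ × ℕ × ℕ) :=
  {t | AbcTriple t.1 t.2.1 t.2.2 ∧ rad (t.1 * t.2.1 * t.2.2) ≤ Y ∧
    (rad (t.1 * t.2.1 * t.2.2) : ℝ) ^ M ≤ t.2.2}

/-- The abc-triples `(a, b, c)` with `c ≤ X` and `rad (abc) ^ M ≤ c`. -/
def violatorsUpTo (M : ℝ) (X : ℕ) : Set (ℕ × ℕ × ℕ) :=
  {t | AbcTriple t.1 t.2.1 t.2.2 ∧ t.2.2 ≤ X ∧ (rad (t.1 * t.2.1 * t.2.2) : ℝ) ^ M ≤ t.2.2}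

/-- There is a function `f` with `f M = 1 - M` for `M ≤ 2/5`, `1/3 ≤ f M ≤ 3/5` for `M ≥ 2/5` and
`f M → 1/3` for `M → ∞` such that, for all real `M > 1/3` and `ε > 0`:
* for all large `Y`, the set of the abc-triples of any size with `rad (abc) ≤ Y` and
  `rad (abc) ^ M ≤ c` is finite, with at most `Y ^ (f M + ε)` elements and, if `M < 1`, with at
  least `Y ^ (1 - M - ε)` elements;
* for all large `X`, at most `X ^ ((f M + ε) / M)` abc-triples have `c ≤ X` and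
  `rad (abc) ^ M ≤ c`. -/
theorem result : ∃ f : ℝ → ℝ, (∀ M, M ≤ 2 / 5 → f M = 1 - M) ∧
    (∀ M, 2 / 5 ≤ M → 1 / 3 ≤ f M ∧ f M ≤ 3 / 5) ∧ Tendsto f atTop (𝓝 (1 / 3)) ∧
    ∀ M ε : ℝ, 1 / 3 < M → 0 < ε →
      (∀ᶠ Y : ℕ in atTop, (violators M Y).Finite ∧
        ((violators M Y).ncard : ℝ) ≤ (Y : ℝ) ^ (f M + ε) ∧
        (M < 1 → (Y : ℝ) ^ (1 - M - ε) ≤ (violators M Y).ncard)) ∧
      ∀ᶠ X : ℕ in atTop, (violatorsUpTo M X).Finite ∧
        ((violatorsUpTo M X).ncard : ℝ) ≤ (X : ℝ) ^ ((f M + ε) / M) := by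
  obtain ⟨f, hf1, hf2, hlim, hmain⟩ := Pool.Agent.Lib.AbcX.violT_full
  refine ⟨f, hf1, hf2, hlim, fun M ε hM hε => ?_⟩
  have hM0 : 0 < M := by linarith
  have hlim2 : Tendsto (fun n : ℕ => (n : ℝ)) atTop atTop := tendsto_natCast_atTop_atTop
  have hY : ∀ᶠ Y : ℕ in atTop, (violators M Y).Finite ∧
      ((violators M Y).ncard : ℝ) ≤ (Y : ℝ) ^ (f M + ε) ∧
      (M < 1 → (Y : ℝ) ^ (1 - M - ε) ≤ (violators M Y).ncard) := hmain M ε hM hε
  refine ⟨hY, ?_⟩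
  have hfl : Tendsto (fun X : ℕ => ⌊(X : ℝ) ^ (1 / M)⌋₊) atTop atTop :=
    tendsto_nat_floor_atTop.comp ((tendsto_rpow_atTop (by positivity)).comp hlim2)
  filter_upwards [hfl.eventually hY, eventually_ge_atTop 1] with X h2 hX1
  have hX0 : (0 : ℝ) < X := by exact_mod_cast hX1
  set n : ℕ := ⌊(X : ℝ) ^ (1 / M)⌋₊ with hn
  have hsub : violatorsUpTo M X ⊆ violators M n := by
    rintro ⟨a, b, c⟩ ⟨habc, hcX, hr⟩
    simp only at habc hcX hr
    refine ⟨habc, ?_, hr⟩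
    simp only
    apply Nat.le_floor
    have hcX' : (c : ℝ) ≤ X := by exact_mod_cast hcX
    have hrpos : (0 : ℝ) < rad (a * b * c) := by
      have : 0 < rad (a * b * c) :=
        Finset.prod_pos (fun _ hp => (Nat.prime_of_mem_primeFactors hp).pos)
      exact_mod_cast this
    have g1 : (rad (a * b * c) : ℝ) ^ M ≤ X := hr.trans hcX'
    have g2 : ((rad (a * b * c) : ℝ) ^ M) ^ (1 / M) ≤ (X : ℝ) ^ (1 / M) :=
      Real.rpow_le_rpow (by positivity) g1 (by positivity)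
    rwa [← Real.rpow_mul hrpos.le, mul_one_div_cancel hM0.ne', Real.rpow_one] at g2
  refine ⟨h2.1.subset hsub, ?_⟩
  have h3 : ((violatorsUpTo M X).ncard : ℝ) ≤ ((violators M n).ncard : ℝ) := by
    exact_mod_cast Set.ncard_le_ncard hsub h2.1
  have hf0 : 0 ≤ f M + ε := by
    rcases le_total M (2 / 5) with h | h
    · rw [hf1 M h]
      linarith
    · have := (hf2 M h).1
      linarith
  calc ((violatorsUpTo M X).ncard : ℝ) ≤ (n : ℝ) ^ (f M + ε) := h3.trans h2.2.1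
    _ ≤ ((X : ℝ) ^ (1 / M)) ^ (f M + ε) :=
        Real.rpow_le_rpow (Nat.cast_nonneg _) (Nat.floor_le (by positivity)) hf0
    _ = (X : ℝ) ^ ((f M + ε) / M) := by
        rw [← Real.rpow_mul hX0.le]
        congr 1
        ring

end Pool.Agent.Results.MP_2ec8a3_nt.Violators
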